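import Pool.Agent.Helper17.Rg.Goals

/-!
# RG-VAN (packet 7394): an exact relation among `1 / 2 ^ l t`, `1 / 3 ^ l t` splits
-/

set_option autoImplicit false

namespace Pool.Agent.Helper49.Rg

open Pool.Agent.Helper17.Rg

/-- a common denominator -/
theorem den_exists {r : ℕ} (u : Fin r → ℚ) :
    ∃ D : ℕ, 0 < D ∧ ∃ w : Fin r → ℤ, ∀ t, (D : ℚ) * u t = w t := by
  refine ⟨∏ t, (u t).den, Finset.prod_pos (fun t _ => (u t).pos), ?_⟩
  have h : ∀ t, ∃ n : ℤ, ((∏ t, (u t).den : ℕ) : ℚ) * u t = n := by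
    intro t
    obtain ⟨k, hk⟩ := Finset.dvd_prod_of_mem (fun t => (u t).den) (Finset.mem_univ t)
    refine ⟨k * (u t).num, ?_⟩
    rw [hk]
    push_cast
    have := Rat.mul_den_eq_num (u t)
    linear_combination (k : ℚ) * this
  choose w hw using h
  exact ⟨w, hw⟩

theorem split_sum {r : ℕ} (u : Fin r → ℚ) (g : Fin r → Bool) (l : Fin r → ℕ) :
    ∑ t, u t / (gb (g t) : ℚ) ^ l t =
      (∑ t, if g t then 0 else u t / (2 : ℚ) ^ l t) +
        (∑ t, if g t then u t / (3 : ℚ) ^ l t else 0) := by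
  rw [← Finset.sum_add_distrib]
  refine Finset.sum_congr rfl fun t _ => ?_
  cases g t <;> simp [gb]

theorem int_mul {r : ℕ} (D : ℕ) (u : Fin r → ℚ) (w : Fin r → ℤ)
    (hw : ∀ t, (D : ℚ) * u t = w t) (p : Fin r → Bool) (l : Fin r → ℕ) (b : ℕ) (hb : 0 < b) :
    ((D : ℚ) * ∑ t, if p t then u t / (b : ℚ) ^ l t else 0) * (b : ℚ) ^ (∑ t, l t) =
      ((∑ t, if p t then w t * (b : ℤ) ^ ((∑ t, l t) - l t) else 0 : ℤ) : ℚ) := by
  rw [Finset.mul_sum, Finset.sum_mul]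
  push_cast
  refine Finset.sum_congr rfl fun t _ => ?_
  cases p t
  · simp
  · have h1 : l t ≤ ∑ t, l t := Finset.single_le_sum (fun _ _ => Nat.zero_le _) (Finset.mem_univ t)
    have hb' : (b : ℚ) ≠ 0 := by exact_mod_cast hb.ne'
    have h2 : (b : ℚ) ^ (∑ t, l t) = (b : ℚ) ^ l t * (b : ℚ) ^ ((∑ t, l t) - l t) := by
      rw [← pow_add, Nat.add_sub_cancel' h1]
    simp only [if_true]
    rw [h2, ← hw t]
    field_simp

theorem van (h : Pool.Agent.Helper17.Rg.ZInt) : Pool.Agent.Helper17.Rg.Van := by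
  intro r u g
  obtain ⟨D, hD, w, hw⟩ := den_exists u
  obtain ⟨N1, hN1⟩ := pow_unbounded_of_one_lt ((D : ℚ) * ∑ t, |u t|) (by norm_num : (1 : ℚ) < 2)
  refine ⟨N1, fun N hN l hl hs => ?_⟩
  rw [split_sum] at hs
  have hDq : (0 : ℚ) < D := by exact_mod_cast hD
  set S2 : ℚ := ∑ t, if g t then 0 else u t / (2 : ℚ) ^ l t with hS2
  set S3 : ℚ := ∑ t, if g t then u t / (3 : ℚ) ^ l t else 0 with hS3
  have e2 : S2 = ∑ t, if (!(g t)) then u t / ((2 : ℕ) : ℚ) ^ l t else 0 := by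
    rw [hS2]
    refine Finset.sum_congr rfl fun t _ => ?_
    cases g t <;> simp
  have e3 : S3 = ∑ t, if g t then u t / ((3 : ℕ) : ℚ) ^ l t else 0 := by
    rw [hS3]
    refine Finset.sum_congr rfl fun t _ => ?_
    cases g t <;> simp
  have i2 := int_mul D u w hw (fun t => !(g t)) l 2 (by norm_num)
  have i3 := int_mul D u w hw g l 3 (by norm_num)
  rw [← e2] at i2
  rw [← e3] at i3
  have hz3 : ((D : ℚ) * S2) * 3 ^ (∑ t, l t) =
      ((-(∑ t, if g t then w t * ((3 : ℕ) : ℤ) ^ ((∑ t, l t) - l t) else 0) : ℤ) : ℚ) := by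
    rw [Int.cast_neg, ← i3]
    have : S2 = - S3 := by linarith
    rw [this]
    push_cast
    ring
  obtain ⟨k, hk⟩ := h ((D : ℚ) * S2) _ _ _ _ (by exact_mod_cast i2) hz3
  have hb : |(D : ℚ) * S2| < 1 := by
    have hb1 : |S2| ≤ (∑ t, |u t|) / 2 ^ N := by
      rw [hS2, Finset.sum_div]
      refine (Finset.abs_sum_le_sum_abs _ _).trans (Finset.sum_le_sum fun t _ => ?_)
      split_ifs
      · simp only [abs_zero]; positivity
      · rw [abs_div, abs_of_pos (by positivity : (0 : ℚ) < 2 ^ l t)]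
        have : (2 : ℚ) ^ N ≤ 2 ^ l t := pow_le_pow_right₀ (by norm_num) (hl t)
        exact div_le_div_of_nonneg_left (abs_nonneg _) (by positivity) this
    have hb2 : (2 : ℚ) ^ N1 ≤ 2 ^ N := pow_le_pow_right₀ (by norm_num) hN
    rw [abs_mul, abs_of_pos hDq]
    calc (D : ℚ) * |S2| ≤ D * ((∑ t, |u t|) / 2 ^ N) := by gcongr
      _ = (D * ∑ t, |u t|) / 2 ^ N := by ring
      _ < 1 := by
        rw [div_lt_one (by positivity)]
        linarith
  rw [hk] at hb
  have hk0 : k = 0 := by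
    have : |k| < 1 := by exact_mod_cast hb
    exact Int.abs_lt_one_iff.mp this
  rw [hk0, Int.cast_zero] at hk
  have h2 : S2 = 0 := by
    rcases mul_eq_zero.mp hk with h | h
    · exact absurd h hDq.ne'
    · exact h
  exact ⟨h2, by linarith⟩

end Pool.Agent.Helper49.Rg
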